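import Mathlib
import Pool.Agent.Lib.MP_de0dde_an.ExactFinal

set_option autoImplicit false

namespace Pool.Agent.Results.MP_de0dde_an.BlowupSets

open Set
open scoped ContDiff

/-- For every `T > 0` and every closed set `X` of reals there is a Schwartz class solution of the
bad Boussinesq equation on `ℝ × [0,T)` that is unbounded near `(x₀, T)` exactly when `x₀ ∈ X`. -/
theorem result (T : ℝ) (hT : 0 < T) (X : Set ℝ) (hX : IsClosed X) :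
    ∃ u : ℝ → ℝ → ℝ,
      ContDiffOn ℝ ∞ (fun p : ℝ × ℝ => u p.1 p.2) (univ ×ˢ Ico 0 T) ∧
      (∀ x : ℝ, ∀ t ∈ Ico 0 T,
        iteratedDerivWithin 2 (fun τ => u x τ) (Ico 0 T) t =
          iteratedDeriv 2 (fun y => u y t) x + iteratedDeriv 2 (fun y => u y t ^ 2) x +
            iteratedDeriv 4 (fun y => u y t) x) ∧
      (∀ N : ℕ, 1 ≤ N → ∀ τ ∈ Ico 0 T, ∃ C : ℝ, ∀ x : ℝ, ∀ t ∈ Icc 0 τ,
        ∑ i ∈ Finset.range (N + 1), (1 + |x|) ^ N * |iteratedDeriv i (fun y => u y t) x| ≤ C) ∧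
      ∀ x₀ : ℝ, x₀ ∈ X ↔ ∀ ε : ℝ, 0 < ε →
        ¬ ∃ C : ℝ, ∀ x t : ℝ, |x - x₀| < ε → T - ε < t → t ∈ Ico 0 T → |u x t| ≤ C :=
  Pool.Agent.Lib.MP_de0dde_an.exact_set T hT X hX

end Pool.Agent.Results.MP_de0dde_an.BlowupSets
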